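import Pool.Agent.H83.AT.Targets

/-!
Module CL of the board at_modules (MP_c9ef16_gt): local structure of a constructible sheaf
concentrated on a stratum.
-/

open CategoryTheory CategoryTheory.Limits TopologicalSpace Topology Set Opposite

namespace Pool.Agent.H84.AT

open Pool.Agent.H83.AT Pool.Agent.H96.AL Pool.Agent.H85.AU

/-- the linear algebra on a stalk -/
lemma bij_aux {F T W M : Type} [Field F] [AddCommGroup T] [Module F T] [AddCommGroup W]
    [Module F W] [AddCommGroup M] [Module F M] {r : ℕ} (I : Fin r → T →ₗ[F] W)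
    (P : Fin r → W →ₗ[F] T) (hIP : ∀ a b t, P b (I a t) = if a = b then t else 0)
    (hPI : ∀ z, ∑ a, I a (P a z) = z) (q : T) (hq : Function.Bijective (fun c : F => c • q))
    (ψ : Fin r → T →ₗ[F] M) (hb : IsBas (F := F) (fun a => ψ a q)) (Θ : W →ₗ[F] M)
    (hΘ : ∀ z, Θ z = ∑ a, ψ a (P a z)) : Function.Bijective Θ := by
  constructor
  · rw [← LinearMap.ker_eq_bot, LinearMap.ker_eq_bot']
    intro z hz
    have hc : ∀ a, ∃ c : F, c • q = P a z := fun a => hq.2 (P a z)
    choose c hc using hc
    rw [hΘ] at hz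
    have h1 : ∑ a, c a • ψ a q = 0 := by
      rw [← hz]
      refine Finset.sum_congr rfl fun a _ => ?_
      rw [← hc a, map_smul]
    have h2 := Fintype.linearIndependent_iff.1 hb.1 c h1
    rw [← hPI z]
    refine Finset.sum_eq_zero fun a _ => ?_
    rw [← hc a, h2 a, zero_smul, map_zero]
  · intro g
    have hg : g ∈ Submodule.span F (Set.range (fun a => ψ a q)) := by rw [hb.2]; trivial
    obtain ⟨c, hc⟩ := (Submodule.mem_span_range_iff_exists_fun F).1 hg
    refine ⟨∑ a, I a (c a • q), ?_⟩
    rw [hΘ, ← hc]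
    refine Finset.sum_congr rfl fun b _ => ?_
    rw [map_sum, Finset.sum_congr rfl (fun a _ => hIP a b (c a • q)), Finset.sum_ite_eq' Finset.univ b]
    simp

variable {F : Type} [Field F] {X : TopCat.{0}}

lemma sm_add {A B : Sh F X} (f g : A ⟶ B) (x : X) (s : Stk A x) :
    sm (f + g) x s = sm f x s + sm g x s := by
  obtain ⟨V, hx, t, rfl⟩ := exists_gm A s
  have e : ap (f + g) V t = ap f V t + ap g V t := rfl
  rw [← gm_ap, ← gm_ap, ← gm_ap, e, map_add]

lemma sm_zero {A B : Sh F X} (x : X) (s : Stk A x) : sm (0 : A ⟶ B) x s = 0 := by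
  obtain ⟨V, hx, t, rfl⟩ := exists_gm A s
  have e : ap (0 : A ⟶ B) V t = 0 := rfl
  rw [← gm_ap, e, map_zero]

lemma sm_sum {A B : Sh F X} {ι : Type} (I : Finset ι) (f : ι → (A ⟶ B)) (x : X) (s : Stk A x) :
    sm (∑ i ∈ I, f i) x s = ∑ i ∈ I, sm (f i) x s := by
  classical
  induction I using Finset.induction_on with
  | empty => rw [Finset.sum_empty, Finset.sum_empty, sm_zero]
  | insert a I ha ih => rw [Finset.sum_insert ha, Finset.sum_insert ha, sm_add, ih]

lemma stk_zero_of_isZero {A : Sh F X} (h : IsZero A) (x : X) (g : Stk A x) : g = 0 := by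
  have e : 𝟙 A = 0 := h.eq_of_src _ _
  have h1 := sm_id A x g
  rw [e, sm_zero] at h1
  exact h1.symm

/-- the stalk of `F_U` at a point of `U` -/
lemma one_stk (hKK : T_KK) (U : Opens X) {y : X} (hy : y ∈ U) :
    Function.Bijective (fun c : F => c • gm (cutSh U (one F X)) hy (eU F U)) := by
  have h1 := (hKK F X (ModuleCat.of F F)).1 y (Opens.mem_top y)
  have h2 : ∀ c : F, sm (ic U (one F X)) y (c • gm (cutSh U (one F X)) hy (eU F U)) =
      gm (constSh F X (ModuleCat.of F F)) (Opens.mem_top y) (kc F X (ModuleCat.of F F) c) := by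
    intro c
    have e1 : c = c • (1 : F) := by rw [smul_eq_mul, mul_one]
    have e2 : kc F X (ModuleCat.of F F) c = c • kc F X (ModuleCat.of F F) (1 : F) := by
      have := (kc F X (ModuleCat.of F F)).map_smul c (1 : F)
      rw [← this]
      exact congrArg _ e1
    rw [map_smul, ← gm_ap, ap_ic_eU, gm_rs]
    rw [e2, map_smul]
    rfl
  have h3 : Function.Bijective (fun c : F => sm (ic U (one F X)) y
      (c • gm (cutSh U (one F X)) hy (eU F U))) := by
    have : (fun c : F => sm (ic U (one F X)) y
      (c • gm (cutSh U (one F X)) hy (eU F U))) = fun c : F =>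
        gm (constSh F X (ModuleCat.of F F)) (Opens.mem_top y) (kc F X (ModuleCat.of F F) c) :=
      funext h2
    rw [this]
    exact h1
  exact ((sm_ic_bij (one F X) hy).of_comp_iff' _).1 h3

theorem cl (hXC : T_XC) (hKK : T_KK) (hKU : T_KU) (hPW : T_PW) : T_CL := by
  intro F _ X Z hZ hm N A j hC hiso hzero x hx
  have hco : ∀ (i : ℕ) (y : X), y ∈ Z i → y ∉ co (X := X) hZ i := fun i y h h' => h' h
  -- stalks of `A`
  have hA1 : ∀ y ∈ Z j, ∀ g : Stk A y, g = 0 := by
    intro y hy g
    obtain ⟨g', rfl⟩ := ((isIso_iff _).1 hiso y).2 g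
    rw [stk_cut_eq_zero A (hco j y hy) g', map_zero]
  have hA2 : ∀ y, y ∉ Z (j + 1) → ∀ g : Stk A y, g = 0 := by
    intro y hy g
    obtain ⟨g', rfl⟩ := (sm_ic_bij (U := co (X := X) hZ (j + 1)) A hy).2 g
    rw [stk_zero_of_isZero hzero y g', map_zero]
  obtain ⟨V0, r, s0, hxV, hrN, hbas⟩ := hC j x hx
  set K : Opens X := co (X := X) hZ (j + 1) with hK
  set U : Opens X := V0 ⊓ co (X := X) hZ j with hU
  set kap := ic K (one F X) with hkap
  set q := cokernel.π kap with hq
  have hxU : x ∈ U := ⟨hxV, hx.2⟩
  refine ⟨U, hxU, r, hrN, ?_⟩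
  -- the morphisms given by the sections
  have hphi : ∀ i, ∃ φ : cutSh U (one F X) ⟶ A, ap φ U (eU F U) = rs A inf_le_left (s0 i) :=
    fun i => (hKU F X U A).2 _
  choose φ hφ using hphi
  have hExc := hXC F X U
  have hadd := hExc.add
  have hSE : (ShortComplex.mk kap q (cokernel.condition kap)).ShortExact :=
    ShortComplex.ShortExact.mk (ShortComplex.exact_cokernel kap)
  have hw : cutMap (le_refl U) kap ≫ cutMap (le_refl U) q = 0 := by
    have := ((cut F X).obj U).map_comp kap q
    rw [cokernel.condition kap, Functor.map_zero] at this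
    exact this.symm
  have hSE' : (ShortComplex.mk (cutMap (le_refl U) kap) (cutMap (le_refl U) q) hw).ShortExact :=
    Exc.shortExact hExc hSE hw
  have hz : ∀ i, cutMap (le_refl U) kap ≫ φ i = 0 := by
    intro i
    apply hom_ext
    intro y g
    by_cases hy : y ∈ Z (j + 1)
    · have : g = 0 := by
        apply sm_ic_inj
        rw [map_zero]
        exact stk_cut_eq_zero _ (hco (j + 1) y hy) _
      rw [this, map_zero, map_zero]
    · rw [hA2 y hy (sm _ y g), hA2 y hy (sm _ y g)]
  have := hSE'.epi_g
  have hpsi : ∀ i, ∃ ψ : cutSh U (cokernel kap) ⟶ A, cutMap (le_refl U) q ≫ ψ = φ i :=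
    fun i => ⟨hSE'.exact.desc (φ i) (hz i), hSE'.exact.g_desc (φ i) (hz i)⟩
  choose ψ hψ using hpsi
  have hW := hPW (Sh F X) (cokernel kap) r
  generalize pw (cokernel kap) r = W at hW ⊢
  obtain ⟨I, P, hIP, hPI⟩ := hW
  let Θ : cutSh U W ⟶ A := ∑ a, cutMap (le_refl U) (P a) ≫ ψ a
  have hΘ : ∀ V (s : Sec (cutSh U W) V), ap Θ V s ∈ cutSec U A V := by
    intro V s y hy hyU
    rw [gm_ap, stk_cut_eq_zero W hyU (gm _ hy s), map_zero]
  have key : IsIso (cutLift U Θ hΘ) := by
    rw [isIso_iff]
    intro y
    by_cases hyU : y ∈ U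
    · have hlift : ∀ g, sm (ic U A) y (sm (cutLift U Θ hΘ) y g) = sm Θ y g := by
        intro g
        rw [← sm_comp, cutLift_ic]
      suffices hb : Function.Bijective (sm Θ y) by
        have e : (fun g => sm (ic U A) y (sm (cutLift U Θ hΘ) y g)) = sm Θ y := funext hlift
        refine ((sm_ic_bij A hyU).of_comp_iff' _).1 ?_
        show Function.Bijective (fun g => sm (ic U A) y (sm (cutLift U Θ hΘ) y g))
        rw [e]
        exact hb
      have hPI' : ∀ z : Stk (cutSh U W) y, ∑ a, sm (cutMap (le_refl U) (I a)) y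
          (sm (cutMap (le_refl U) (P a)) y z) = z := by
        intro z
        have e : ∑ a, cutMap (le_refl U) (P a) ≫ cutMap (le_refl U) (I a) = 𝟙 (cutSh U W) := by
          have h1 : ((cut F X).obj U).map (∑ a, P a ≫ I a) =
              ∑ a, ((cut F X).obj U).map (P a ≫ I a) := Functor.map_sum _ _ _
          rw [hPI, CategoryTheory.Functor.map_id] at h1
          refine Eq.trans ?_ h1.symm
          refine Finset.sum_congr rfl fun a _ => ?_
          exact (((cut F X).obj U).map_comp (P a) (I a)).symm
        have e2 := sm_id (cutSh U W) y z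
        rw [← e, sm_sum] at e2
        rw [← e2]
        refine Finset.sum_congr rfl fun a _ => ?_
        rw [sm_comp]
        rw [e2]
      have hIP' : ∀ a b (t : Stk (cutSh U (cokernel kap)) y),
          sm (cutMap (le_refl U) (P b)) y (sm (cutMap (le_refl U) (I a)) y t) =
            if a = b then t else 0 := by
        intro a b t
        rw [← sm_comp]
        have e : cutMap (le_refl U) (I a) ≫ cutMap (le_refl U) (P b) =
            ((cut F X).obj U).map (I a ≫ P b) := (((cut F X).obj U).map_comp (I a) (P b)).symm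
        rw [e, hIP]
        split_ifs with hab
        · rw [CategoryTheory.Functor.map_id]
          exact sm_id _ _ _
        · rw [Functor.map_zero]
          exact sm_zero _ _
      have hsum : ∀ z, sm Θ y z = ∑ a, sm (ψ a) y (sm (cutMap (le_refl U) (P a)) y z) := by
        intro z
        have : sm Θ y z = ∑ a, sm (cutMap (le_refl U) (P a) ≫ ψ a) y z := sm_sum _ _ _ _
        rw [this]
        refine Finset.sum_congr rfl fun a _ => ?_
        rw [sm_comp]
      by_cases hyS : y ∈ Z (j + 1)
      · have hq1 : Function.Bijective (sm (cutMap (le_refl U) q) y) := by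
          obtain ⟨-, h2, h3⟩ := (shortExact_iff _ _ hw).1 hSE'
          refine ⟨?_, h2 y⟩
          rw [← LinearMap.ker_eq_bot, LinearMap.ker_eq_bot']
          intro g hg
          obtain ⟨t, rfl⟩ := h3 y g hg
          have : t = 0 := by
            apply sm_ic_inj
            rw [map_zero]
            exact stk_cut_eq_zero _ (hco (j + 1) y hyS) _
          rw [this, map_zero]
        have hq2 : Function.Bijective (fun c : F => c • sm (cutMap (le_refl U) q) y
            (gm (cutSh U (one F X)) hyU (eU F U))) := by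
          have e : (fun c : F => c • sm (cutMap (le_refl U) q) y
            (gm (cutSh U (one F X)) hyU (eU F U))) = fun c : F => sm (cutMap (le_refl U) q) y
              (c • gm (cutSh U (one F X)) hyU (eU F U)) := by
            funext c
            rw [map_smul]
          rw [e]
          exact hq1.comp (one_stk hKK U hyU)
        refine bij_aux (F := F) (fun a => sm (cutMap (le_refl U) (I a)) y)
          (fun a => sm (cutMap (le_refl U) (P a)) y) hIP' hPI' _ hq2 (fun a => sm (ψ a) y) ?_
          (sm Θ y) hsum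
        have hb := hbas y hyU.1 ⟨hyS, hyU.2⟩
        have e : (fun a => sm (ψ a) y (sm (cutMap (le_refl U) q) y
            (gm (cutSh U (one F X)) hyU (eU F U)))) = fun i => gm A hyU.1 (s0 i) := by
          funext a
          rw [← sm_comp, hψ, ← gm_ap, hφ, gm_rs]
        rw [e]
        exact hb
      · have hQ : ∀ t : Stk (cutSh U (cokernel kap)) y, t = 0 := by
          intro t
          apply sm_ic_inj
          rw [map_zero]
          obtain ⟨-, h2, -⟩ := (shortExact_iff _ _ (cokernel.condition kap)).1 hSE
          obtain ⟨g, hg⟩ := h2 y (sm (ic U (cokernel kap)) y t)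
          obtain ⟨k, rfl⟩ := (sm_ic_bij (U := K) (one F X) hyS).2 g
          rw [← hg]
          have := sm_comp kap q y k
          rw [cokernel.condition kap, sm_zero] at this
          exact this.symm
        constructor
        · intro z z' _
          rw [← hPI' z, ← hPI' z']
          refine Finset.sum_congr rfl fun a _ => ?_
          rw [hQ (sm _ y z), hQ (sm _ y z')]
        · intro g
          exact ⟨0, by rw [map_zero, hA2 y hyS g]⟩
    · constructor
      · intro z z' _
        rw [stk_cut_eq_zero W hyU z, stk_cut_eq_zero W hyU z']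
      · intro g
        exact ⟨0, by rw [map_zero, stk_cut_eq_zero A hyU g]⟩
  exact ⟨(asIso (cutLift U Θ hΘ)).symm⟩

end Pool.Agent.H84.AT
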