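import Pool.Agent.H83.AT.Targets

/-!
Module TA of the board at_modules (MP_c9ef16_gt): local systems on a stratum have local bases.
-/

open CategoryTheory CategoryTheory.Limits TopologicalSpace Topology Set Opposite

namespace Pool.Agent.H84.AT

open Pool.Agent.H83.AT Pool.Agent.H96.AL Pool.Agent.H85.AU

/-- bases and bijective linear maps -/
lemma isBas_iff {F T W : Type} [Field F] [AddCommGroup T] [Module F T] [AddCommGroup W]
    [Module F W] {r : ℕ} (f : T →ₗ[F] W) (hf : Function.Bijective f) (v : Fin r → T) :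
    IsBas (F := F) (fun i => f (v i)) ↔ IsBas (F := F) v := by
  have hk : LinearMap.ker f = ⊥ := LinearMap.ker_eq_bot.2 hf.1
  have h1 : LinearIndependent F (fun i => f (v i)) ↔ LinearIndependent F v :=
    LinearMap.linearIndependent_iff f hk
  have h2 : Submodule.span F (Set.range (fun i => f (v i))) = ⊤ ↔
      Submodule.span F (Set.range v) = ⊤ := by
    have e : Set.range (fun i => f (v i)) = f '' Set.range v := by
      rw [← Set.range_comp]
      rfl
    rw [e, Submodule.span_image]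
    have e2 : (⊤ : Submodule F W) = Submodule.map f ⊤ := by
      rw [Submodule.map_top, LinearMap.range_eq_top.2 hf.2]
    rw [e2]
    exact (Submodule.map_injective_of_injective hf.1).eq_iff
  unfold IsBas
  rw [h1, h2]

lemma mem_inf {X : Type} [TopologicalSpace X] {ι : Type} (I : Finset ι) (P : ι → Opens X) (x : X)
    (h : ∀ i, x ∈ P i) : x ∈ I.inf P := by
  classical
  induction I using Finset.induction_on with
  | empty => rw [Finset.inf_empty]; exact Opens.mem_top x
  | insert a I ha ih => rw [Finset.inf_insert]; exact ⟨h a, ih⟩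

variable {F : Type} [Field F] {X : TopCat.{0}}

/-- finitely many germs are germs of sections over a common open set -/
lemma common (A : Sh F X) (x : X) {r : ℕ} (b : Fin r → Stk A x) :
    ∃ (V : Opens X) (hx : x ∈ V) (s : Fin r → Sec A V), ∀ i, gm A hx (s i) = b i := by
  have h := fun i => exists_gm A (b i)
  choose V hx s hs using h
  refine ⟨Finset.univ.inf V, mem_inf _ _ _ hx,
    fun i => rs A (Finset.inf_le (Finset.mem_univ i)) (s i), fun i => ?_⟩
  rw [gm_rs, hs]

theorem ta (hPS : T_PS) (hKK : T_KK) : T_TA := by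
  intro F _ X A S N hL x hxS
  let k : TopCat.of S ⟶ X := TopCat.ofHom ⟨(Subtype.val : S → X), continuous_subtype_val⟩
  let L : Sh F (TopCat.of S) := (pb F k).obj A
  obtain ⟨U, hUo, hxU, V, hfin, hrank, ⟨th⟩⟩ := hL (⟨x, hxS⟩ : S)
  let l : TopCat.of U ⟶ TopCat.of S :=
    TopCat.ofHom ⟨(Subtype.val : U → S), continuous_subtype_val⟩
  let B : Sh F (TopCat.of U) := (pb F l).obj L
  have th' : B ≅ constSh F (TopCat.of U) V := th
  clear th
  -- sections with germs that are bases
  let v := Module.finBasis F V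
  let t : Fin (Module.finrank F V) → Sec B ⊤ := fun i =>
    ap th'.inv ⊤ (kc F (TopCat.of U) V (v i))
  have ht : ∀ u : TopCat.of U, IsBas (F := F) (fun i => gm B (Opens.mem_top u) (t i)) := by
    intro u
    have e : (fun i => gm B (Opens.mem_top u) (t i)) = fun i => sm th'.inv u
        (gm (constSh F (TopCat.of U) V) (Opens.mem_top u) (kc F (TopCat.of U) V (v i))) := by
      funext i
      exact gm_ap _ _ _
    rw [e, isBas_iff _ ((isIso_iff th'.inv).1 inferInstance u)]
    have h2 := isBas_iff ((gm (constSh F (TopCat.of U) V) (Opens.mem_top u)).comp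
      (kc F (TopCat.of U) V)) ((hKK F (TopCat.of U) V).1 u (Opens.mem_top u)) v
    exact h2.2 ⟨v.linearIndependent, v.span_eq⟩
  let x0 : TopCat.of S := (⟨x, hxS⟩ : S)
  let u0 : TopCat.of U := (⟨x0, hxU⟩ : U)
  -- germs at `x`
  have ha : ∀ i, ∃ a : Stk L (l u0), sg l L u0 a = gm B (Opens.mem_top u0) (t i) :=
    fun i => (hPS F _ _ l L u0).2 _
  choose a ha using ha
  have hb : ∀ i, ∃ b : Stk A (k x0), sg k A x0 b = a i := fun i => (hPS F _ _ k A x0).2 (a i)
  choose b hb using hb
  obtain ⟨V', hxV', s, hs⟩ := common A x b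
  have hg : ∀ i, gm B (V := pre l (pre k V')) (x := u0) hxV' (ps l L (pre k V') (ps k A V' (s i)))
      = gm B (Opens.mem_top u0) (t i) := by
    intro i
    have e1 := sg_gm l L u0 (V := pre k V') hxV' (ps k A V' (s i))
    have e2 := sg_gm k A x0 (V := V') hxV' (s i)
    rw [← ha i, ← hb i, ← hs i]
    exact (e1.symm.trans (congrArg (sg l L u0) e2.symm))
  have hN := fun i => gm_eq B (V := ⊤) (U := pre l (pre k V')) (x := u0) hxV' (Opens.mem_top u0)
    _ _ (hg i)
  choose N' hN1 hN2 hN3 hN4 using hN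
  let Nn : Opens (TopCat.of U) := Finset.univ.inf N'
  have hu0 : u0 ∈ Nn := mem_inf _ _ _ hN1
  have hNn : ∀ i, Nn ≤ N' i := fun i => Finset.inf_le (Finset.mem_univ i)
  -- an open subset of `X`
  have hopen : IsOpen {y : S | ∃ h : y ∈ U, ((⟨y, h⟩ : U) : TopCat.of U) ∈ Nn} := by
    have h1 : IsOpen ((Subtype.val : U → S) '' {u : U | (u : TopCat.of U) ∈ Nn}) :=
      hUo.isOpenMap_subtype_val _ Nn.isOpen
    have e : (Subtype.val : U → S) '' {u : U | (u : TopCat.of U) ∈ Nn} =
        {y : S | ∃ h : y ∈ U, ((⟨y, h⟩ : U) : TopCat.of U) ∈ Nn} := by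
      ext y
      constructor
      · rintro ⟨u, hu, rfl⟩
        exact ⟨u.2, hu⟩
      · rintro ⟨h, hu⟩
        exact ⟨⟨y, h⟩, hu, rfl⟩
    rw [← e]
    exact h1
  obtain ⟨O, hO, hOe⟩ := isOpen_induced_iff.1 hopen
  have hOmem : ∀ y : S, y.1 ∈ O ↔ ∃ h : y ∈ U, ((⟨y, h⟩ : U) : TopCat.of U) ∈ Nn := by
    intro y
    exact Set.ext_iff.1 hOe y
  refine ⟨V' ⊓ ⟨O, hO⟩, Module.finrank F V, fun i => rs A inf_le_left (s i),
    ⟨hxV', (hOmem ⟨x, hxS⟩).2 ⟨hxU, hu0⟩⟩, hrank, ?_⟩
  intro y hy hyS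
  obtain ⟨hyU, hyN⟩ := (hOmem ⟨y, hyS⟩).1 hy.2
  let y0 : TopCat.of S := (⟨y, hyS⟩ : S)
  let w0 : TopCat.of U := (⟨y0, hyU⟩ : U)
  have hw : ∀ i, sg l L w0 (sg k A y0 (gm A (V := V') (x := y) hy.1 (s i))) =
      gm B (Opens.mem_top w0) (t i) := by
    intro i
    have e1 := sg_gm l L w0 (V := pre k V') hy.1 (ps k A V' (s i))
    have e2 := sg_gm k A y0 (V := V') hy.1 (s i)
    have e3 := congrArg (gm B (V := N' i) (x := w0) (hNn i hyN)) (hN4 i)
    rw [gm_rs, gm_rs] at e3
    exact ((congrArg (sg l L w0) e2).trans e1).trans e3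
  have h1 := ht w0
  have e : (fun i => gm B (Opens.mem_top w0) (t i)) = fun i =>
      sg l L w0 (sg k A y0 (gm A (V := V') (x := y) hy.1 (s i))) := (funext hw).symm
  rw [e, isBas_iff _ (hPS F _ _ l L w0)] at h1
  have h2 := (isBas_iff _ (hPS F _ _ k A y0) _).1 h1
  have e4 : (fun i => gm A hy (rs A inf_le_left (s i))) =
      fun i => gm A (V := V') (x := y) hy.1 (s i) := funext fun i => gm_rs _ _ _ _
  rw [e4]
  exact h2

end Pool.Agent.H84.AT
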